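import Pool.Agent.V11193.MC.NoMir

/-!
# Up to automorphisms there are only finitely many kernels of nef classes on a torus quotient
-/

set_option autoImplicit false

namespace Pool.Agent.V11193.MC

open Filter Topology
open Pool.Agent.W594.SYZ2 Pool.Agent.W594.SYZ2.TQ Pool.Agent.TH735.AQ
open Pool.Agent.Y167 (AffGrp EffDiv NumTrivial Normalizes cone IsClass Rel rel_abs pull pull_chern
  pull_section cone_image Normalizes.inv cone_of_scaled)
open Pool.Agent.Y167.CC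

variable {V : Type*} [NormedAddCommGroup V] [NormedSpace ℂ V] [FiniteDimensional ℂ V]
  {Γ : AffGrp V}

/-- The kernel of a hermitian form. -/
def kernel {V : Type*} (H : V → V → ℂ) : Set V := {v | ∀ w, H v w = 0}

/-- The space `N^1(X)`. -/
abbrev NS {V : Type*} [NormedAddCommGroup V] [NormedSpace ℂ V] (Γ : AffGrp V) : Type _ :=
  N1 Γ (LinearMap.id : V →ₗ[ℂ] V)

omit [FiniteDimensional ℂ V] in
theorem pullback_form {f : V ≃ᵃ[ℂ] V} {g : NS Γ ≃ₗ[ℝ] NS Γ} (h : IsPullback f g) (x : NS Γ)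
    (u w : V) : form (g x) u w = form x (f.linear u) (f.linear w) := h x u w _ _ rfl rfl

/-- The group of the pullbacks by the automorphisms of `X` which are induced by affine
transformations of `V` and preserve the divisor `Δ`. -/
def autGrp {ι : Type*} [Fintype ι] (Δ : EffDiv Γ ι) : LinGrp (NS Γ) where
  carrier := {g | ∃ f : V ≃ᵃ[ℂ] V, Normalizes Γ f ∧ (∀ v, Δ.mul (f v) = Δ.mul v) ∧ IsPullback f g}
  one_mem' := by
    refine ⟨1, fun γ => ?_, fun v => rfl, fun x u w u' w' hu hw => ?_⟩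
    · rw [one_mul, inv_one, mul_one]
    · change u' = u at hu
      change w' = w at hw
      rw [hu, hw]
      rfl
  mul_mem' := by
    rintro g₁ g₂ ⟨f₁, h₁, h₁', p₁⟩ ⟨f₂, h₂, h₂', p₂⟩
    refine ⟨f₂ * f₁, fun γ => ?_, fun v => ?_, fun x u w u' w' hu hw => ?_⟩
    · rw [h₁ γ, h₂ (f₁ * γ * f₁⁻¹), mul_inv_rev]
      have e : f₂ * (f₁ * γ * f₁⁻¹) * f₂⁻¹ = f₂ * f₁ * γ * (f₁⁻¹ * f₂⁻¹) := by group
      rw [e]
    · change Δ.mul (f₂ (f₁ v)) = _
      rw [h₂', h₁']
    · change form (g₁ (g₂ x)) u w = _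
      rw [pullback_form p₁, pullback_form p₂]
      change u' = f₂.linear (f₁.linear u) at hu
      change w' = f₂.linear (f₁.linear w) at hw
      rw [hu, hw]
  inv_mem' := by
    rintro g ⟨f, h, h', p⟩
    refine ⟨f⁻¹, h.inv, fun v => ?_, fun x u w u' w' hu hw => ?_⟩
    · have h1 := h' (f⁻¹ v)
      have h2 : f (f⁻¹ v) = v := f.apply_symm_apply v
      rw [h2] at h1
      exact h1.symm
    · change u' = f.linear.symm u at hu
      change w' = f.linear.symm w at hw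
      have h1 := pullback_form p (g⁻¹ x) u' w'
      have h2 : g (g⁻¹ x) = x := g.apply_symm_apply x
      rw [h2, hu, hw, f.linear.apply_symm_apply, f.linear.apply_symm_apply] at h1
      rw [hu, hw]
      exact h1.symm

omit [FiniteDimensional ℂ V] in
theorem form_class {f : V ≃ᵃ[ℂ] V} {g : NS Γ ≃ₗ[ℝ] NS Γ} (p : IsPullback f g) (x : NS Γ) :
    form (g x) = fun v w => form x (f.linear v) (f.linear w) := by
  funext v w
  exact pullback_form p x v w

theorem class_pull {f : V ≃ᵃ[ℂ] V} (hf : Normalizes Γ f) {g : NS Γ ≃ₗ[ℝ] NS Γ}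
    (p : IsPullback f g) {x : NS Γ} {L : LineBundle Γ}
    (hL : IsClass (LinearMap.id : V →ₗ[ℂ] V) L (form x)) :
    IsClass (LinearMap.id : V →ₗ[ℂ] V) (pull f hf L (affine_differentiable f)) (form (g x)) := by
  obtain ⟨H, hH, h⟩ := hL
  refine ⟨_, pull_chern f hf (affine_differentiable f) hH, fun u w => ?_⟩
  rw [pullback_form p, h]
  rfl

theorem aut_int {ι : Type*} [Fintype ι] (Δ : EffDiv Γ ι) :
    Preserves (autGrp Δ) (integral Γ (LinearMap.id : V →ₗ[ℂ] V)) := by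
  rintro g ⟨f, hf, -, p⟩ x ⟨L, hL⟩
  exact ⟨_, class_pull hf p hL⟩

theorem aut_nefEff {ι : Type*} [Fintype ι] (Δ : EffDiv Γ ι) :
    Preserves (autGrp Δ) (nefCone Γ (LinearMap.id : V →ₗ[ℂ] V) ∩ effCone Γ LinearMap.id) := by
  classical
  rintro g ⟨f, hf, -, p⟩ x ⟨hx, S, hS, hxS⟩
  refine ⟨fun u => ?_, S.image g, ?_, ?_⟩
  · rw [pullback_form p]
    exact hx _
  · intro a ha
    obtain ⟨b, hb, rfl⟩ := Finset.mem_image.1 (Finset.mem_coe.1 ha)
    obtain ⟨L, s, hL, hs, v, hv⟩ := hS hb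
    refine ⟨_, _, class_pull hf p hL, pull_section f hf (affine_differentiable f) hs,
      f.symm v, ?_⟩
    rw [f.apply_symm_apply]
    exact hv
  · exact cone_image (g : NS Γ →ₗ[ℝ] NS Γ) hxS

/-- The kernels of the nef classes form finitely many orbits under the automorphisms. -/
theorem finite_kernels (hΓ : IsTorusQuotient Γ)
    (hproj : ∃ (L : LineBundle Γ) (H : V → V → ℂ), IsChernForm L H ∧ IsPositiveForm H)
    {ι : Type*} [Fintype ι] (Δ : EffDiv Γ ι) (hΔ : NumTrivial Δ (LinearMap.id : V →ₗ[ℂ] V)) :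
    ∃ 𝒦 : Set (Set V), 𝒦.Finite ∧ ∀ (L : LineBundle Γ) (H : V → V → ℂ), IsChernForm L H →
      IsNefForm H → ∃ f : V ≃ᵃ[ℂ] V, Normalizes Γ f ∧ (∀ v, Δ.mul (f v) = Δ.mul v) ∧
        f.linear '' kernel H ∈ 𝒦 := by
  classical
  obtain ⟨L₀, H₀, hc₀, hp₀⟩ := hproj
  have R := rel_abs hΓ hc₀ hp₀
  obtain ⟨S, hS1, hS2, hS3, -⟩ := core_int R Δ hΔ (autGrp Δ) (aut_int Δ) (aut_nefEff Δ)
    (fun f hf _ hf3 g hg => ⟨f, hf, hf3, hg⟩)
  let K : Finset (NS Γ) → Set V := fun T => {v | ∀ a ∈ T, ∀ w, form a v w = 0}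
  refine ⟨K '' ↑S.powerset, (Finset.finite_toSet _).image _, fun L H hc hn => ?_⟩
  have hLc : IsClass (LinearMap.id : V →ₗ[ℂ] V) L H := ⟨H, hc, fun _ _ => rfl⟩
  let x : NS Γ := ⟨H, Submodule.subset_span ⟨L, hLc⟩⟩
  have hxn : x ∈ nefCone Γ (LinearMap.id : V →ₗ[ℂ] V) := hn
  have hxe : x ∈ effCone Γ (LinearMap.id : V →ₗ[ℂ] V) := by
    obtain ⟨m, hm, L', hL', hs⟩ := Pool.Agent.Y167.exists_eff (x := x) R ⟨L, hLc⟩ hxn
    refine ⟨{(m : ℝ) • x}, ?_, ?_⟩
    · intro a ha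
      rw [Finset.coe_singleton, Set.mem_singleton_iff] at ha
      subst ha
      obtain ⟨s, hs1, hs2⟩ := hs 0
      exact ⟨L', s, hL', hs1, 0, hs2⟩
    · have hmr : (0 : ℝ) < m := by exact_mod_cast hm
      exact cone_of_scaled hmr (Finset.mem_singleton_self _)
  have hx : x ∈ nefCone Γ (LinearMap.id : V →ₗ[ℂ] V) ∩ effCone Γ LinearMap.id := ⟨hxn, hxe⟩
  rw [hS3] at hx
  simp only [Set.mem_iUnion, Set.mem_image, exists_prop] at hx
  obtain ⟨g, ⟨f, hf, hf', p⟩, y, hy, hgy⟩ := hx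
  refine ⟨f, hf, hf', ?_⟩
  obtain ⟨c, hc0, hyc⟩ := hy
  have hform : ∀ u w, form y u w = ∑ a ∈ S, (c a : ℂ) * form a u w := by
    intro u w
    have h1 : form y = ∑ a ∈ S, c a • form a := by
      have h2 : ∀ T : Finset (NS Γ), form (∑ a ∈ T, c a • a) = ∑ a ∈ T, c a • form a := by
        intro T
        induction T using Finset.induction_on with
        | empty => rfl
        | insert a T ha ih =>
          rw [Finset.sum_insert ha, Finset.sum_insert ha, ← ih]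
          rfl
      rw [hyc]
      exact h2 S
    rw [h1, Finset.sum_apply, Finset.sum_apply]
    refine Finset.sum_congr rfl fun a _ => ?_
    change (c a : ℝ) • form a u w = _
    rw [Complex.real_smul]
  have hHy : ∀ v w, H v w = form y (f.linear v) (f.linear w) := by
    intro v w
    rw [← pullback_form p, hgy]
    rfl
  have hherm : ∀ a ∈ S, IsHermitian (form a) := by
    intro a ha
    obtain ⟨La, Ha, hHa, hea⟩ := hS1 ha
    have e : form a = Ha := by
      funext u w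
      exact hea u w
    rw [e]
    exact hHa.1
  have hnefa : ∀ a ∈ S, IsNefForm (form a) := by
    intro a ha
    exact (hS2 (Pool.Agent.Y167.mem_cone_self ha)).1
  refine ⟨S.filter fun a => c a ≠ 0, Finset.mem_coe.2 (Finset.mem_powerset.2
    (Finset.filter_subset _ _)), ?_⟩
  ext v
  constructor
  · intro hv
    refine ⟨f.linear.symm v, fun w => ?_, f.linear.apply_symm_apply v⟩
    rw [hHy, f.linear.apply_symm_apply, hform]
    refine Finset.sum_eq_zero fun a ha => ?_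
    by_cases h0 : c a = 0
    · rw [h0, Complex.ofReal_zero, zero_mul]
    · rw [hv a (Finset.mem_filter.2 ⟨ha, h0⟩), mul_zero]
  · rintro ⟨u, hu, rfl⟩ a ha w
    obtain ⟨haS, ha0⟩ := Finset.mem_filter.1 ha
    have h1 : (form y (f.linear u) (f.linear u)).re = 0 := by
      rw [← hHy, hu, Complex.zero_re]
    rw [hform, Complex.re_sum] at h1
    have h2 : ∀ b ∈ S, 0 ≤ ((c b : ℂ) * form b (f.linear u) (f.linear u)).re := by
      intro b hb
      rw [Complex.re_ofReal_mul]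
      exact mul_nonneg (hc0 b) (hnefa b hb _)
    have h3 := (Finset.sum_eq_zero_iff_of_nonneg h2).1 h1 a haS
    rw [Complex.re_ofReal_mul] at h3
    exact h_isotropic (hherm a haS) (hnefa a haS) _ ((mul_eq_zero.1 h3).resolve_left ha0) w

/-- The same for fibrations given by line bundles. -/
theorem finite_fibrations (hΓ : IsTorusQuotient Γ)
    (hproj : ∃ (L : LineBundle Γ) (H : V → V → ℂ), IsChernForm L H ∧ IsPositiveForm H)
    {ι : Type*} [Fintype ι] (Δ : EffDiv Γ ι) (hΔ : NumTrivial Δ (LinearMap.id : V →ₗ[ℂ] V)) :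
    ∃ 𝒦 : Set (Set V), 𝒦.Finite ∧ ∀ (n : ℕ) (Γ' : AffGrp (Fin n → ℂ)) (π : V →ₗ[ℂ] (Fin n → ℂ)),
      IsFibration Γ Γ' π → (∃ (L : LineBundle Γ) (H : V → V → ℂ), IsChernForm L H ∧ Induces L Γ' π) →
      ∃ f : V ≃ᵃ[ℂ] V, Normalizes Γ f ∧ (∀ v, Δ.mul (f v) = Δ.mul v) ∧
        f.linear '' {v | π v = 0} ∈ 𝒦 := by
  obtain ⟨𝒦, h1, h2⟩ := finite_kernels hΓ hproj Δ hΔ
  refine ⟨𝒦, h1, fun n Γ' π hfib ⟨L, H, hc, hind⟩ => ?_⟩
  obtain ⟨hn, hk⟩ := nef_of_induces hΓ hc hfib hind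
  obtain ⟨f, hf, hf', h3⟩ := h2 L H hc hn
  refine ⟨f, hf, hf', ?_⟩
  have e : {v | π v = 0} = kernel H := Set.ext hk
  rw [e]
  exact h3

end Pool.Agent.V11193.MC
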