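import Pool.Agent.V11193.MC.Fib

/-!
# Isomorphic fibrations, and finiteness up to isomorphism
-/

set_option autoImplicit false

namespace Pool.Agent.V11193.MC

open Filter Topology
open Pool.Agent.W594.SYZ2 Pool.Agent.W594.SYZ2.TQ Pool.Agent.TH735.AQ
open Pool.Agent.Y167 (AffGrp EffDiv NumTrivial Normalizes Normalizes.inv)

/-- The data of a fibration of a quotient of `V`: the dimension `n` of the base, the group `grp` acting
on `ℂ ^ n`, and the linear map `lin : V → ℂ ^ n`. -/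
structure Fib (V : Type*) [NormedAddCommGroup V] [NormedSpace ℂ V] where
  n : ℕ
  grp : AffGrp (Fin n → ℂ)
  lin : V →ₗ[ℂ] (Fin n → ℂ)

section defs

variable {V : Type*} [NormedAddCommGroup V] [NormedSpace ℂ V]

/-- `t` is a fibration of `X = V / Γ`. -/
def IsF (Γ : AffGrp V) (t : Fib V) : Prop := IsFibration Γ t.grp t.lin

/-- The line bundle `L` on `X = V / Γ` induces the fibration `t`: a power of `L` is the pullback of an
ample line bundle on the base. -/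
def Ind {Γ : AffGrp V} (L : LineBundle Γ) (t : Fib V) : Prop := Induces L t.grp t.lin

/-- `X = V / Γ` is projective: it has an ample line bundle. -/
def IsProj (Γ : AffGrp V) : Prop :=
  ∃ (L : LineBundle Γ) (H : V → V → ℂ), IsChernForm L H ∧ IsPositiveForm H

/-- `t` is a fibration of `X = V / Γ` with projective base: it is induced by a line bundle on `X`. -/
def IsFib (Γ : AffGrp V) (t : Fib V) : Prop :=
  IsF Γ t ∧ ∃ (L : LineBundle Γ) (H : V → V → ℂ), IsChernForm L H ∧ Ind L t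

/-- The automorphism of `X = V / Γ` which is induced by the affine transformation `f` of `V` is an
isomorphism from the fibration `t` to the fibration `t'`: `f` normalises `Γ` and maps the fibres of
`t.lin` to the fibres of `t'.lin`. -/
def IsIso (Γ : AffGrp V) (t t' : Fib V) (f : V ≃ᵃ[ℂ] V) : Prop :=
  Normalizes Γ f ∧ ∀ v w, t.lin v = t.lin w ↔ t'.lin (f v) = t'.lin (f w)

/-- The fibrations in the set `P` of fibrations of `X` fall into finitely many isomorphism classes: a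
finite subset of `P` contains for each element of `P` an isomorphic one. -/
def FinitelyMany (Γ : AffGrp V) (P : Set (Fib V)) : Prop :=
  ∃ 𝓛 : Set (Fib V), 𝓛.Finite ∧ 𝓛 ⊆ P ∧ ∀ t ∈ P, ∃ t' ∈ 𝓛, ∃ f, IsIso Γ t t' f

end defs

variable {V : Type*} [NormedAddCommGroup V] [NormedSpace ℂ V]
  {Γ : AffGrp V} {ι : Type*} [Fintype ι]

theorem norm_mul' {f g : V ≃ᵃ[ℂ] V} (hf : Normalizes Γ f) (hg : Normalizes Γ g) :
    Normalizes Γ (g * f) := by
  intro γ
  rw [hf γ, hg (f * γ * f⁻¹), mul_inv_rev]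
  have e : g * (f * γ * f⁻¹) * g⁻¹ = g * f * γ * (f⁻¹ * g⁻¹) := by group
  rw [e]

theorem act' (f : V ≃ᵃ[ℂ] V) (v : V) : f v = f.linear v + f 0 := by
  have h := f.map_vadd 0 v
  rw [vadd_eq_add, vadd_eq_add, add_zero] at h
  exact h

theorem isIso_of_kernel {t t' : Fib V} {f f' : V ≃ᵃ[ℂ] V}
    (hf : Normalizes Γ f) (hf' : Normalizes Γ f')
    (he : f.linear '' {v | t.lin v = 0} = f'.linear '' {v | t'.lin v = 0}) :
    IsIso Γ t t' (f'⁻¹ * f) := by
  set F : V ≃ᵃ[ℂ] V := f'⁻¹ * f with hF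
  have hFn : Normalizes Γ F := norm_mul' hf hf'.inv
  have hFl : ∀ v, f'.linear (F.linear v) = f.linear v := fun v =>
    f'.linear.apply_symm_apply (f.linear v)
  have hk : ∀ v, t.lin v = 0 ↔ t'.lin (F.linear v) = 0 := by
    intro v
    constructor
    · intro hv
      have h1 : f.linear v ∈ f'.linear '' {v | t'.lin v = 0} := by
        rw [← he]
        exact ⟨v, hv, rfl⟩
      obtain ⟨u, hu, hu'⟩ := h1
      rw [← hFl v] at hu'
      rw [← f'.linear.injective hu']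
      exact hu
    · intro hv
      have h1 : f.linear v ∈ f.linear '' {v | t.lin v = 0} := by
        rw [he]
        exact ⟨F.linear v, hv, hFl v⟩
      obtain ⟨u, hu, hu'⟩ := h1
      rw [← f.linear.injective hu']
      exact hu
  refine ⟨hFn, fun v w => ?_⟩
  rw [← sub_eq_zero, ← map_sub, hk, ← sub_eq_zero (a := t'.lin (F v)), ← map_sub, act' F v,
    act' F w, add_sub_add_right_eq_sub, ← map_sub]

/-- Finiteness up to isomorphism. -/
theorem finite_list (D : EffDiv Γ ι) (P : Set (Fib V))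
    {𝒦 : Set (Set V)} (h𝒦 : 𝒦.Finite)
    (h : ∀ t ∈ P, ∃ f : V ≃ᵃ[ℂ] V, Normalizes Γ f ∧ (∀ v, D.mul (f v) = D.mul v) ∧
      f.linear '' {v | t.lin v = 0} ∈ 𝒦) :
    ∃ 𝓛 : Set (Fib V), 𝓛.Finite ∧ 𝓛 ⊆ P ∧
      ∀ t ∈ P, ∃ t' ∈ 𝓛, ∃ f : V ≃ᵃ[ℂ] V, (∀ v, D.mul (f v) = D.mul v) ∧ IsIso Γ t t' f := by
  let 𝒦' : Set (Set V) := {K | K ∈ 𝒦 ∧ ∃ t ∈ P, ∃ f : V ≃ᵃ[ℂ] V, Normalizes Γ f ∧
    (∀ v, D.mul (f v) = D.mul v) ∧ f.linear '' {v | t.lin v = 0} = K}
  have : Finite 𝒦' := (h𝒦.subset fun K hK => hK.1).to_subtype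
  choose T hT F hF hFD hK using fun K : 𝒦' => K.2.2
  refine ⟨Set.range T, Set.finite_range T, ?_, fun t ht => ?_⟩
  · rintro _ ⟨K, rfl⟩
    exact hT K
  · obtain ⟨f, hf, hfD, hf𝒦⟩ := h t ht
    let K : 𝒦' := ⟨_, hf𝒦, t, ht, f, hf, hfD, rfl⟩
    refine ⟨T K, ⟨K, rfl⟩, (F K)⁻¹ * f, fun v => ?_,
      isIso_of_kernel hf (hF K) (hK K).symm⟩
    have h1 := hFD K (((F K)⁻¹ * f) v)
    have h2 : F K (((F K)⁻¹ * f) v) = f v := (F K).apply_symm_apply (f v)
    rw [h2, hfD] at h1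
    exact h1.symm

/-- The general result on the fibrations of a pair. -/
theorem fibs_pair [FiniteDimensional ℂ V] (hΓ : IsTorusQuotient Γ) (hproj : IsProj Γ)
    (D : EffDiv Γ ι) (hD : NumTrivial D (LinearMap.id : V →ₗ[ℂ] V)) (P : Set (Fib V))
    (hP : ∀ t ∈ P, IsFib Γ t) :
    ∃ 𝓛 : Set (Fib V), 𝓛.Finite ∧ 𝓛 ⊆ P ∧
      ∀ t ∈ P, ∃ t' ∈ 𝓛, ∃ f : V ≃ᵃ[ℂ] V, (∀ v, D.mul (f v) = D.mul v) ∧ IsIso Γ t t' f := by
  obtain ⟨𝒦, h𝒦, hk⟩ := finite_fibrations hΓ hproj D hD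
  exact finite_list D P h𝒦
    (fun t ht => hk t.n t.grp t.lin (hP t ht).1 (hP t ht).2)

/-- The fibrations of a projective torus quotient without mirrors. -/
theorem fibs [FiniteDimensional ℂ V] (hΓ : IsTorusQuotient Γ) (hm : ∀ v, ¬ OnMirror Γ v)
    (hproj : IsProj Γ) (P : Set (Fib V)) (hP : ∀ t ∈ P, IsFib Γ t) : FinitelyMany Γ P := by
  obtain ⟨𝓛, h1, h2, h3⟩ := fibs_pair hΓ hproj (zeroDiv Γ) (numTrivial_zero hΓ hm) P hP
  refine ⟨𝓛, h1, h2, fun t ht => ?_⟩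
  obtain ⟨t', ht', f, -, hf⟩ := h3 t ht
  exact ⟨t', ht', f, hf⟩

end Pool.Agent.V11193.MC
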