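import Pool.Agent.Y167.CCMain

/-!
# The movable cone of a quotient of a complex torus

Notations of `Pool.Agent.Y167.Defs` and `Pool.Agent.Y167.Stm`: `X = V / Γ` is the quotient of a complex
torus by a finite group, and `N1 Γ j` is the space `N^1(X/Z)`, where `j` is the embedding of the kernel of
the linear map which gives `X → Z`. We define the movable cone and show that each effective class is nef
and movable, and that the effective movable cone is the effective nef cone.
-/

set_option autoImplicit false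

namespace Pool.Agent.V11193.MC

open Filter Topology
open Pool.Agent.W594.SYZ2 Pool.Agent.TH735.AQ
open Pool.Agent.Y167 (AffGrp EffDiv NumTrivial Normalizes cone IsFace IsClass Rel)
open Pool.Agent.Y167.CC

section defs

variable {V E : Type*} [NormedAddCommGroup V] [NormedSpace ℂ V]
  [NormedAddCommGroup E] [NormedSpace ℂ E]

/-- The inverse image in `V` of the base locus of the complete linear system of the line bundle `L` on
`X = V / Γ`: the common zeros of all sections. -/
def baseLocus {Γ : AffGrp V} (L : LineBundle Γ) : Set V := {v | ∀ s, L.IsSection s → s v = 0}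

/-- The base locus of `L` has codimension at least two: it does not contain the zero set of any entire
function which has a zero. (On the vector space `V` the zero sets of the nonzero entire functions with a
zero are the effective divisors, and the zero function takes care of the line bundles without
nonzero sections.) -/
def IsMovable {Γ : AffGrp V} (L : LineBundle Γ) : Prop :=
  ∀ h : V → ℂ, Differentiable ℂ h → (∃ v, h v = 0) → ¬ {v | h v = 0} ⊆ baseLocus L

/-- The classes of the line bundles whose base locus has codimension at least two. -/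
def movable (Γ : AffGrp V) (j : E →ₗ[ℂ] V) : Set (N1 Γ j) :=
  {x | ∃ L : LineBundle Γ, IsClass j L (form x) ∧ IsMovable L}

/-- The (closed) movable cone: the closure of the convex cone spanned by the classes of the line
bundles whose base locus has codimension at least two. -/
def movCone (Γ : AffGrp V) (j : E →ₗ[ℂ] V) : Set (N1 Γ j) :=
  closure {x | ∃ S : Finset (N1 Γ j), ↑S ⊆ movable Γ j ∧ x ∈ cone S}

/-- The effective movable cone. -/
def movEff (Γ : AffGrp V) (j : E →ₗ[ℂ] V) : Set (N1 Γ j) := movCone Γ j ∩ effCone Γ j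

end defs

variable {V E : Type*} [NormedAddCommGroup V] [NormedSpace ℂ V] [FiniteDimensional ℂ V]
  [NormedAddCommGroup E] [NormedSpace ℂ E] [FiniteDimensional ℂ E] {Γ : AffGrp V}
  {j : E →ₗ[ℂ] V} {H₀ : V → V → ℂ}

omit [FiniteDimensional ℂ V] [FiniteDimensional ℂ E] in
theorem nef_closed : IsClosed (nefCone Γ j) := by
  have h1 : nefCone Γ j = ⋂ u : E, {x : N1 Γ j | 0 ≤ (form x u u).re} := by
    ext x
    simp only [Set.mem_iInter]
    rfl
  rw [h1]
  refine isClosed_iInter fun u => isClosed_le continuous_const ?_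
  refine Complex.continuous_re.comp ?_
  have h2 : Continuous fun x : N1 Γ j => form x := continuous_subtype_val
  exact (continuous_apply u).comp ((continuous_apply u).comp h2)

omit [FiniteDimensional ℂ V] [FiniteDimensional ℂ E] in
theorem exists_section {L : LineBundle Γ} (h : IsMovable L) :
    ∃ s, L.IsSection s ∧ ∃ v, s v ≠ 0 := by
  have h1 := h (fun _ => 0) (differentiable_const _) ⟨0, rfl⟩
  rw [Set.not_subset] at h1
  obtain ⟨v, -, hv⟩ := h1
  unfold baseLocus at hv
  rw [Set.mem_ofPred_eq] at hv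
  push Not at hv
  obtain ⟨s, hs, hsv⟩ := hv
  exact ⟨s, hs, v, hsv⟩

omit [FiniteDimensional ℂ V] [FiniteDimensional ℂ E] in
theorem movable_effective : movable Γ j ⊆ effective Γ j := by
  rintro x ⟨L, hL, hm⟩
  obtain ⟨s, hs, hv⟩ := exists_section hm
  exact ⟨L, s, hL, hs, hv⟩

omit [FiniteDimensional ℂ V] [FiniteDimensional ℂ E] in
theorem movable_of_bpf {L : LineBundle Γ} (h : ∀ v, ∃ s, L.IsSection s ∧ s v ≠ 0) :
    IsMovable L := by
  rintro f - ⟨v, hv⟩ hsub
  obtain ⟨s, hs, hsv⟩ := h v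
  exact hsv (hsub hv s hs)

omit [FiniteDimensional ℂ E] in
/-- The movable cone is contained in the nef cone. -/
theorem mov_sub_nef (hΓ : IsTorusQuotient Γ) : movCone Γ j ⊆ nefCone Γ j := by
  refine closure_minimal ?_ nef_closed
  rintro x ⟨S, hS, hx⟩
  exact eff_nef hΓ ⟨S, hS.trans movable_effective, hx⟩

/-- The nef and effective classes are movable. -/
theorem nefEff_sub_mov (R : Rel Γ j H₀) : nefCone Γ j ∩ effCone Γ j ⊆ movCone Γ j := by
  intro x hx
  refine subset_closure ?_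
  exact nefEff_sub_span R (P := movable Γ j)
    (fun y L hL hs => ⟨L, hL, movable_of_bpf hs⟩) hx

/-- Effective classes are movable. -/
theorem eff_sub_mov (R : Rel Γ j H₀) : effCone Γ j ⊆ movCone Γ j :=
  fun _ hx => nefEff_sub_mov R ⟨eff_nef R.tq hx, hx⟩

theorem movEff_eq (R : Rel Γ j H₀) : movEff Γ j = nefCone Γ j ∩ effCone Γ j :=
  Set.Subset.antisymm (fun _ hx => ⟨mov_sub_nef R.tq hx.1, hx.2⟩)
    fun _ hx => ⟨nefEff_sub_mov R hx, hx.2⟩

/-- The main theorem on the effective movable cone. -/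
theorem main (R : Rel Γ j H₀) {ι : Type*} [Fintype ι] (Δ : EffDiv Γ ι) (hΔ : NumTrivial Δ j)
    (M : AddSubgroup (N1 Γ j)) {k : ℕ} (hk : 0 < k)
    (hM1 : ∀ x ∈ integral Γ j, (k : ℝ) • x ∈ M) (hM2 : ∀ x ∈ M, (k : ℝ) • x ∈ integral Γ j)
    (𝒢 : LinGrp (N1 Γ j)) (h𝒢M : ∀ g ∈ 𝒢, ∀ x ∈ M, g x ∈ M)
    (h𝒢N : Preserves 𝒢 (movEff Γ j))
    (h𝒢 : ∀ f : V ≃ᵃ[ℂ] V, Normalizes Γ f → (∀ v, ∃ e, f v = v + j e) →
      (∀ v, Δ.mul (f v) = Δ.mul v) → ∀ g : N1 Γ j ≃ₗ[ℝ] N1 Γ j, IsPullback f g → g ∈ 𝒢) :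
    (effCone Γ j ⊆ movCone Γ j ∧ movCone Γ j ⊆ nefCone Γ j ∧
      movEff Γ j = nefCone Γ j ∩ effCone Γ j) ∧
    (∃ S : Finset (N1 Γ j), ↑S ⊆ integral Γ j ∧ cone S ⊆ movEff Γ j ∧
      IsFundDomain 𝒢 (movEff Γ j) (cone S)) ∧
    ∃ 𝓕 : Set (Set (N1 Γ j)), 𝓕.Finite ∧ (∀ F ∈ 𝓕, IsFace F (movEff Γ j)) ∧
      ∀ F, IsFace F (movEff Γ j) → ∃ g ∈ 𝒢, ∃ F' ∈ 𝓕, F = g '' F' := by
  have e := movEff_eq R
  rw [e] at h𝒢N ⊢
  obtain ⟨S, h1, h2, h3⟩ := core R Δ hΔ M hk hM1 hM2 𝒢 h𝒢M h𝒢N h𝒢
  exact ⟨⟨eff_sub_mov R, mov_sub_nef R.tq, rfl⟩, ⟨S, h1, h2, h3⟩, finite_faces 𝒢 R h𝒢N h2 h3⟩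

end Pool.Agent.V11193.MC
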