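import Pool.Agent.Y167.CCMain

/-!
# Torus quotients without mirrors: the canonical class, and symplectic torus quotients
-/

set_option autoImplicit false

namespace Pool.Agent.V11193.MC

open Filter Topology
open Pool.Agent.W594.SYZ2 Pool.Agent.W594.SYZ2.TQ Pool.Agent.TH735.AQ
open Pool.Agent.Y167 (AffGrp EffDiv NumTrivial Normalizes triv chern_zero)

variable {V : Type*} [NormedAddCommGroup V] [NormedSpace ℂ V] [FiniteDimensional ℂ V]
  {Γ : AffGrp V}

/-- The divisor zero. -/
noncomputable def zeroDiv (Γ : AffGrp V) : EffDiv Γ (Fin 0) where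
  L := fun i => i.elim0
  H := fun i => i.elim0
  s := fun i => i.elim0
  r := fun i => i.elim0
  chern := fun i => i.elim0
  sect := fun i => i.elim0
  ne_zero := fun i => i.elim0
  nonneg := fun i => i.elim0

omit [FiniteDimensional ℂ V] in
theorem zeroDiv_mul (v : V) : (zeroDiv Γ).mul v = 0 := by
  unfold EffDiv.mul
  exact Finset.sum_of_isEmpty _

omit [FiniteDimensional ℂ V] in
theorem isRamification_one (h : ∀ v, ¬ OnMirror Γ v) : IsRamification Γ (fun _ => 1) where
  holo := differentiable_const _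
  zero_iff := fun v => ⟨fun h1 => absurd h1 one_ne_zero, fun h1 => absurd h1 (h v)⟩
  order := fun ℓ c hℓ => by
    have hs : Function.Surjective ℓ := by
      have := LinearMap.surjective hℓ
      exact this
    obtain ⟨v, hv⟩ := hs c
    have h1 : ramIndex Γ ℓ c = 1 := by
      unfold ramIndex
      rw [Nat.card_eq_one_iff_unique]
      refine ⟨⟨fun a b => ?_⟩, ⟨⟨1, Γ.one_mem, fun w _ => rfl⟩⟩⟩
      have h2 : ∀ a : {γ : V ≃ᵃ[ℂ] V // γ ∈ Γ ∧ ∀ w, ℓ w = c → γ w = w}, a.1 = 1 := by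
        intro a
        by_contra hne
        exact h v ⟨a.1, a.2.1, hne, ℓ, hℓ, fun w hw => a.2.2 w (hw.trans hv)⟩
      exact Subtype.ext ((h2 a).trans (h2 b).symm)
    refine ⟨fun _ => 1, differentiable_const _, fun w => ?_, v, hv, one_ne_zero⟩
    rw [h1, Nat.sub_self, pow_zero, one_mul]

omit [FiniteDimensional ℂ V] in
theorem det_pow (hΓ : IsTorusQuotient Γ) (γ : Γ) :
    LinearMap.det ((γ : V ≃ᵃ[ℂ] V).linear : V →ₗ[ℂ] V) ^ Nat.card (Lin Γ) = 1 := by
  have := finite_Lin hΓ
  let g : Lin Γ := ⟨(γ : V ≃ᵃ[ℂ] V).linear, γ, γ.2, rfl⟩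
  have h1 : g ^ Nat.card (Lin Γ) = 1 := pow_card_eq_one'
  have h2 : ((g ^ Nat.card (Lin Γ) : Lin Γ) : V ≃ₗ[ℂ] V) = 1 := by rw [h1]; rfl
  have h3 : (g : V ≃ₗ[ℂ] V) ^ Nat.card (Lin Γ) = 1 := by rw [← h2]; rfl
  have h4 : LinearMap.det (((g : V ≃ₗ[ℂ] V) ^ Nat.card (Lin Γ) : V ≃ₗ[ℂ] V) : V →ₗ[ℂ] V) =
      LinearMap.det ((1 : V ≃ₗ[ℂ] V) : V →ₗ[ℂ] V) := by rw [h3]
  have h5 : ∀ (e : V ≃ₗ[ℂ] V) (n : ℕ), LinearMap.det ((e ^ n : V ≃ₗ[ℂ] V) : V →ₗ[ℂ] V) =
      LinearMap.det (e : V →ₗ[ℂ] V) ^ n := by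
    intro e n
    rw [← map_pow]
    congr 1
    ext v
    induction n with
    | zero => rfl
    | succ n ih =>
      rw [pow_succ', pow_succ']
      change e ((e ^ n : V ≃ₗ[ℂ] V) v) = e (((e : V →ₗ[ℂ] V) ^ n) v)
      exact congrArg e ih
  rw [h5] at h4
  rw [show LinearMap.det ((γ : V ≃ᵃ[ℂ] V).linear : V →ₗ[ℂ] V) =
    LinearMap.det ((g : V ≃ₗ[ℂ] V) : V →ₗ[ℂ] V) from rfl, h4]
  exact LinearMap.det_id

omit [FiniteDimensional ℂ V] in
/-- If there are no mirrors, a power of the canonical bundle is trivial. -/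
theorem pluri_triv (hΓ : IsTorusQuotient Γ) :
    IsLogPluricanonical (triv Γ) (Nat.card (Lin Γ)) (fun _ => 1) (fun _ => 1) := by
  intro γ v
  have h1 : (triv Γ).e γ v = 1 := rfl
  rw [h1, det_pow hΓ γ]
  simp only [one_pow, mul_one]

/-- `K_X` is numerically trivial if there are no mirrors. -/
theorem numTrivial_zero (hΓ : IsTorusQuotient Γ) (h : ∀ v, ¬ OnMirror Γ v) :
    NumTrivial (zeroDiv Γ) (LinearMap.id : V →ₗ[ℂ] V) := by
  have := finite_Lin hΓ
  refine ⟨Nat.card (Lin Γ), fun _ => 1, triv Γ, fun _ _ => 0, Nat.card_pos,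
    isRamification_one h, pluri_triv hΓ, chern_zero, fun u w => ?_⟩
  rw [Finset.sum_of_isEmpty, mul_zero, add_zero]

/-- Primitive symplectic torus quotients have no mirrors. -/
theorem no_mirror (hΓ : IsPrimitiveSymplectic Γ) (v : V) : ¬ OnMirror Γ v := by
  rintro ⟨γ, hγ, hne, ℓ, hℓ, hfix⟩
  obtain ⟨σ, hσ, hnd, -⟩ := hΓ.symp
  have hvv : γ v = v := hfix v rfl
  have hlin : ∀ w, γ.linear w = γ (w + v) - v := by
    intro w
    have h1 := γ.map_vadd v w
    rw [vadd_eq_add, vadd_eq_add, hvv] at h1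
    rw [h1, add_sub_cancel_right]
  have hker : ∀ x, ℓ x = 0 → γ.linear x = x := by
    intro x hx
    rw [hlin, hfix (x + v) (by rw [map_add, hx, zero_add]), add_sub_cancel_right]
  obtain ⟨e, he⟩ := LinearMap.surjective hℓ 1
  set u := γ.linear e - e with hu
  have hall : ∀ y, γ.linear y = y + ℓ y • u := by
    intro y
    have h1 : γ.linear (y - ℓ y • e) = y - ℓ y • e :=
      hker _ (by rw [map_sub, map_smul, he, smul_eq_mul, mul_one, sub_self])
    rw [map_sub, map_smul] at h1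
    rw [hu, smul_sub]
    have h2 : γ.linear y = (y - ℓ y • e) + ℓ y • γ.linear e := by rw [← h1]; abel
    rw [h2]
    abel
  have hinv : ∀ x y, bil (σ 0) (γ.linear x) (γ.linear y) = bil (σ 0) x y := by
    intro x y
    have h1 := form_inv hΓ.torus hσ γ hγ ![x, y]
    have h2 : (fun i => γ.linear (![x, y] i)) = ![γ.linear x, γ.linear y] := by
      funext i
      fin_cases i <;> rfl
    rw [h2] at h1
    exact h1
  have hself : ∀ z, bil (σ 0) z z = 0 := by
    intro z
    have h1 := bil_swap (σ 0) z z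
    have h2 : bil (σ 0) z z + bil (σ 0) z z = 0 := by
      nth_rewrite 1 [h1]
      exact neg_add_cancel _
    exact add_self_eq_zero.1 h2
  -- `u` is orthogonal to the mirror
  have hux : ∀ x, ℓ x = 0 → bil (σ 0) x u = 0 := by
    intro x hx
    have h1 := hinv x e
    rw [hker x hx, hall e, he, one_smul, map_add, add_eq_left] at h1
    exact h1
  have hu0 : u = 0 := by
    by_contra hu0
    have hue : bil (σ 0) e u ≠ 0 := by
      intro h1
      apply hu0
      apply hnd 0
      intro y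
      change bil (σ 0) u y = 0
      rw [bil_swap]
      have h2 : y = (y - ℓ y • e) + ℓ y • e := by abel
      rw [h2, map_add, LinearMap.add_apply, map_smul, LinearMap.smul_apply, h1,
        hux _ (by rw [map_sub, map_smul, he, smul_eq_mul, mul_one, sub_self]), smul_zero, add_zero,
        neg_zero]
    have hℓu : ℓ u = 0 := by
      have h1 := hself u
      have h2 : bil (σ 0) u u = bil (σ 0) ((u - ℓ u • e) + ℓ u • e) u := by
        congr 2
        abel
      rw [h2, map_add, LinearMap.add_apply, map_smul, LinearMap.smul_apply,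
        hux _ (by rw [map_sub, map_smul, he, smul_eq_mul, mul_one, sub_self]), zero_add,
        smul_eq_mul] at h1
      exact (mul_eq_zero.1 h1).resolve_right hue
    have := finite_Lin hΓ.torus
    let g : Lin Γ := ⟨γ.linear, γ, hγ, rfl⟩
    have hpow : ∀ n : ℕ, ((g ^ n : Lin Γ) : V ≃ₗ[ℂ] V) e = e + (n : ℂ) • u := by
      intro n
      induction n with
      | zero => simp
      | succ n ih =>
        rw [pow_succ']
        change γ.linear (((g ^ n : Lin Γ) : V ≃ₗ[ℂ] V) e) = _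
        rw [ih, map_add, map_smul, hker u hℓu, hall e, he, one_smul]
        push_cast
        rw [add_smul, one_smul]
        abel
    have h1 := hpow (Nat.card (Lin Γ))
    rw [pow_card_eq_one'] at h1
    have h2 : (((1 : Lin Γ) : Lin Γ) : V ≃ₗ[ℂ] V) e = e := rfl
    rw [h2] at h1
    have h3 : (Nat.card (Lin Γ) : ℂ) • u = 0 := by
      have := h1.symm
      rwa [add_eq_left] at this
    have h4 : (Nat.card (Lin Γ) : ℂ) ≠ 0 := by
      exact_mod_cast Nat.card_pos.ne'
    exact hu0 ((smul_eq_zero.1 h3).resolve_left h4)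
  apply hne
  ext w
  have h1 : γ w = γ.linear (w - v) + v := by
    rw [hlin, sub_add_cancel, sub_add_cancel]
  rw [h1, hall, hu0, smul_zero, add_zero, sub_add_cancel]
  rfl

end Pool.Agent.V11193.MC
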